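import Pool.Agent.H11.NY.Targets

/-!
MP_9b2842_al, module GS: choice of four primes.
-/

set_option autoImplicit false

namespace Pool.Agent.H48.NY.GS

open Pool.Agent.H11.NY

theorem pf_gs : T_GS := by
  intro π f
  classical
  have hinf : {q : ℕ | q.Prime ∧ 5 ≤ q ∧ q ∉ π}.Infinite := by
    rw [Set.infinite_iff_exists_gt]
    intro a
    obtain ⟨p, hp, hpp⟩ := Nat.exists_infinite_primes (a + 5 + π.sup id + 1)
    refine ⟨p, ⟨hpp, by omega, fun hmem => ?_⟩, by omega⟩
    have : id p ≤ π.sup id := Finset.le_sup (f := id) hmem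
    simp only [id] at this
    have h2 : π.sup (fun x => x) = π.sup id := rfl
    omega
  obtain ⟨t, ht, htc⟩ := hinf.exists_subset_card_eq 13
  have htS : ∀ x ∈ t, x.Prime ∧ 5 ≤ x ∧ x ∉ π := fun x hx => ht (Finset.mem_coe.2 hx)
  by_cases hv : ∃ v, 5 ≤ (t.filter fun x => f x = v).card
  · obtain ⟨v, hv⟩ := hv
    have h4 : 4 ≤ ((t.filter fun x => f x = v).erase v).card := by
      have := Finset.pred_card_le_card_erase (s := t.filter fun x => f x = v) (a := v)
      omega
    obtain ⟨u, hu, huc⟩ := Finset.exists_subset_card_eq h4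
    refine ⟨fun i => u.orderEmbOfFin huc i, (u.orderEmbOfFin huc).injective, fun i => ?_,
      Or.inl ⟨v, fun i => ?_⟩⟩
    · have := hu (u.orderEmbOfFin_mem huc i)
      rw [Finset.mem_erase, Finset.mem_filter] at this
      exact htS _ this.2.1
    · have := hu (u.orderEmbOfFin_mem huc i)
      rw [Finset.mem_erase, Finset.mem_filter] at this
      exact ⟨this.2.2, this.1⟩
  · push Not at hv
    have h1 : t.card ≤ 4 * (t.image f).card :=
      Finset.card_le_mul_card_image t 4 fun b _ => by
        have := hv b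
        omega
    have h4 : 4 ≤ (t.image f).card := by omega
    obtain ⟨u, hu, huc⟩ := Finset.exists_subset_card_eq h4
    have hpre : ∀ i : Fin 4, ∃ x ∈ t, f x = u.orderEmbOfFin huc i := fun i =>
      Finset.mem_image.1 (hu (u.orderEmbOfFin_mem huc i))
    choose q hq hfq using hpre
    have hinj : Function.Injective fun i => f (q i) := fun i j hij => by
      simp only [hfq] at hij
      exact (u.orderEmbOfFin huc).injective hij
    exact ⟨q, fun i j hij => hinj (by simp only [hij]), fun i => htS _ (hq i), Or.inr hinj⟩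

end Pool.Agent.H48.NY.GS
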