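import Pool.Agent.H11.NY.Targets

/-!
MP_9b2842_al, module H4.
-/

set_option autoImplicit false

open Equiv (Perm)

namespace Pool.Agent.H48.NY.H4

open Pool.Agent.H11.NY

/-- a power of `ω` with exponent below `q` is one only for the exponent zero -/
lemma val_eq_zero {K : Type} [Field K] {q : ℕ} (hq : q.Prime) {ω : K} (hω : ω ^ q = 1)
    (hω1 : ω ≠ 1) {x : ZMod q} (h : ω ^ x.val = 1) : x = 0 := by
  have : NeZero q := ⟨hq.ne_zero⟩
  have h1 : orderOf ω ∣ q := orderOf_dvd_of_pow_eq_one hω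
  have h2 : orderOf ω ≠ 1 := fun h => hω1 (orderOf_eq_one_iff.1 h)
  have h3 : orderOf ω = q := ((Nat.dvd_prime hq).1 h1).resolve_left h2
  have h4 : q ∣ x.val := by
    have h40 := orderOf_dvd_of_pow_eq_one h
    rwa [h3] at h40
  have h5 : x.val < q := ZMod.val_lt x
  have h6 : x.val = 0 := Nat.eq_zero_of_dvd_of_lt h4 h5
  exact (ZMod.val_eq_zero x).1 h6

lemma disjoint_of_prod {Ω : Type} [Fintype Ω] [DecidableEq Ω] {q m : ℕ} {s : Fin m → Perm Ω}
    (hs : Cyc q s) {t : Perm Ω} (ht : Equiv.Perm.Disjoint t (List.ofFn s).prod) (i : Fin m) :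
    Equiv.Perm.Disjoint t (s i) := by
  have hp : (List.ofFn s).Pairwise Equiv.Perm.Disjoint := by
    rw [List.pairwise_ofFn]
    exact fun i j hij => hs.2 i j hij.ne
  intro x
  by_cases hx : t x = x
  · exact Or.inl hx
  · refine Or.inr ?_
    by_contra hxi
    have h1 := Equiv.Perm.eq_on_support_mem_disjoint (List.mem_ofFn.2 ⟨i, rfl⟩) hp x
      (Equiv.Perm.mem_support.2 hxi)
    rcases ht x with h2 | h2
    · exact hx h2
    · exact hxi (h1.trans h2)

lemma comm_of_disjoint {L Ω K V : Type} [Group L] [Fintype Ω] [DecidableEq Ω] [Field K]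
    [AddCommGroup V] [Module K V] {ψ : L →* alternatingGroup Ω} {ρ : L →* Module.End K V}
    {q : ℕ} {c : Perm Ω → Module.End K V} (hc : CanLift ψ ρ q c) {s t : Perm Ω}
    (hs : s.IsCycle) (hsq : s.support.card = q) (ht : t.IsCycle) (htq : t.support.card = q)
    (hst : Commute s t) : c s * c t = c t * c s := by
  obtain ⟨⟨d, hd, z, hz, hcz⟩, -, -, -⟩ := hc s hs hsq
  obtain ⟨-, -, -, h4⟩ := hc t ht htq
  have h5 := h4 d
  rw [hd, hst.eq, mul_inv_cancel_right] at h5
  rw [hcz, smul_mul_assoc, mul_smul_comm, h5]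

theorem pf_h4 : T_C4 → T_C5 → T_C6 → T_H4 := by
  intro hC4 hC5 hC6 q m L Ω _ _ _ _ ψ K V _ _ _ ρ c ω s a h ζ hset hyp s₁ s₂ h1c h1q h2c h2q
    h12 h1a h2a v
  obtain ⟨hq, hq5, hm, hψ, hV, hsc, hcl, hω, hω1, hqK, hcyc, hah, hψa, hwt, hfix⟩ := hset
  have hfact : Fact q.Prime := ⟨hq⟩
  by_contra hne
  set S : Fin (m + 2) → Perm Ω := Fin.append s ![s₁, s₂] with hS
  set e : Fin m → Fin (m + 2) := Fin.castAdd 2 with he
  set x1 : Fin (m + 2) := Fin.natAdd m (0 : Fin 2) with hx1
  set x2 : Fin (m + 2) := Fin.natAdd m (1 : Fin 2) with hx2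
  have hSe : ∀ i, S (e i) = s i := fun i => Fin.append_left _ _ _
  have hS1 : S x1 = s₁ := Fin.append_right _ _ _
  have hS2 : S x2 = s₂ := Fin.append_right _ _ _
  have heinj : Function.Injective e := Fin.castAdd_injective m 2
  have he1 : ∀ i, e i ≠ x1 := fun i h => by
    have := congrArg Fin.val h
    simp only [he, hx1, Fin.val_castAdd, Fin.val_natAdd] at this
    have := i.2
    omega
  have he2 : ∀ i, e i ≠ x2 := fun i h => by
    have := congrArg Fin.val h
    simp only [he, hx2, Fin.val_castAdd, Fin.val_natAdd] at this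
    have := i.2
    omega
  have h12' : x1 ≠ x2 := fun h => by
    have := congrArg Fin.val h
    simp only [hx1, hx2, Fin.val_natAdd] at this
    simp at this
  have hcases : ∀ P : Fin (m + 2) → Prop, (∀ i, P (e i)) → P x1 → P x2 → ∀ j, P j := by
    intro P p0 p1 p2 j
    refine Fin.addCases (fun i => p0 i) (fun i => ?_) j
    fin_cases i
    · exact p1
    · exact p2
  have h1a' : Equiv.Perm.Disjoint s₁ (List.ofFn s).prod := hψa ▸ h1a
  have h2a' : Equiv.Perm.Disjoint s₂ (List.ofFn s).prod := hψa ▸ h2a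
  have hScyc : Cyc q S := by
    refine ⟨hcases _ (fun i => by rw [hSe]; exact hcyc.1 i) (by rw [hS1]; exact ⟨h1c, h1q⟩)
      (by rw [hS2]; exact ⟨h2c, h2q⟩), ?_⟩
    refine hcases _ (fun i => ?_) ?_ ?_
    · refine hcases _ (fun j hij => ?_) (fun _ => ?_) (fun _ => ?_)
      · rw [hSe, hSe]
        exact hcyc.2 i j fun hh => hij (by rw [hh])
      · rw [hSe, hS1]
        exact (disjoint_of_prod hcyc h1a' i).symm
      · rw [hSe, hS2]
        exact (disjoint_of_prod hcyc h2a' i).symm
    · refine hcases _ (fun j hij => ?_) (fun hh => absurd rfl hh) (fun _ => ?_)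
      · rw [hSe, hS1]
        exact disjoint_of_prod hcyc h1a' j
      · rw [hS1, hS2]
        exact h12
    · refine hcases _ (fun j hij => ?_) (fun _ => ?_) (fun hh => absurd rfl hh)
      · rw [hSe, hS2]
        exact disjoint_of_prod hcyc h2a' j
      · rw [hS1, hS2]
        exact h12.symm
  have hpow : ∀ i, c (S i) ^ q = 1 := fun i => (hcl _ (hScyc.1 i).1 (hScyc.1 i).2).2.1
  have hcomm : ∀ i j, c (S i) * c (S j) = c (S j) * c (S i) := by
    intro i j
    by_cases hij : i = j
    · rw [hij]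
    · exact comm_of_disjoint hcl (hScyc.1 i).1 (hScyc.1 i).2 (hScyc.1 j).1 (hScyc.1 j).2
        (hScyc.2 i j hij).commute
  obtain ⟨χ, hocc, hχ1, hχ2⟩ := hC5 q (m + 2) K V ω hq hω hω1 hqK (fun i => c (S i)) hpow hcomm
    x1 x2 v (by
      beta_reduce
      rw [hS1, hS2]
      exact hne)
  -- the key property
  have star : ∀ ξ : Fin (m + 2) → ZMod q, Occ ω (fun i => c (S i)) ξ →
      ζ + ∑ i, ξ (e i) = 0 → ξ x1 = 0 := by
    intro ξ hξ hsum
    obtain ⟨w, hw0, hw⟩ := hξ
    beta_reduce at hw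
    have h1 := hyp s₁ h1c h1q h1a (fun i => ξ (e i)) w
      (fun i => by
        have := hw (e i)
        rw [hSe] at this
        exact this) hsum
    have h2 := hw x1
    rw [hS1, h1] at h2
    refine val_eq_zero hq hω hω1 ?_
    have h3 : (ω ^ (ξ x1).val - 1) • w = 0 := by
      rw [sub_smul, one_smul, ← h2, sub_self]
    exact sub_eq_zero.1 ((smul_eq_zero.1 h3).resolve_right hw0)
  have key : ∀ (ξ : Fin (m + 2) → ZMod q) (k l : Fin m), (Occ ω (fun i => c (S i)) ξ ∨
      Occ ω (fun i => c (S i)) (fun i => ξ (Equiv.swap (e k) (e l) i))) →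
      ζ + ∑ i, ξ (e i) = 0 → ξ x1 = 0 := by
    intro ξ k l hor hsum
    rcases hor with hξ | hξ
    · exact star ξ hξ hsum
    · have h1 := star _ hξ (by
        have h2 : ∀ i, Equiv.swap (e k) (e l) (e i) = e (Equiv.swap k l i) := fun i =>
          (heinj.swap_apply k l i).symm ▸ rfl
        simp only [h2]
        rw [Equiv.sum_comp (Equiv.swap k l) (fun i => ξ (e i))]
        exact hsum)
      beta_reduce at h1
      rwa [Equiv.swap_apply_of_ne_of_ne (he1 k).symm (he1 l).symm] at h1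
  have hC4' := fun ξ hξ => hC4 q (m + 2) L Ω ψ K V ρ c ω S ξ hq hq5 hψ hcl hω hω1 hScyc hξ
  -- even permutation of the coordinates
  have perm : ∀ j k l : Fin m, k ≠ l → j ≠ k → j ≠ l →
      Occ ω (fun i => c (S i)) (fun i => χ ((Equiv.swap (e j) x2 * Equiv.swap (e k) (e l)) i)) := by
    intro j k l hkl hjk hjl
    refine (hC4' χ hocc).1 _ ?_
    rw [Equiv.Perm.sign_mul, Equiv.Perm.sign_swap (he2 j),
      Equiv.Perm.sign_swap fun hh => hkl (heinj hh)]
    rfl
  have pj : ∀ j k l : Fin m, j ≠ k → j ≠ l →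
      (Equiv.swap (e j) x2 * Equiv.swap (e k) (e l)) (e j) = x2 := by
    intro j k l hjk hjl
    rw [Equiv.Perm.mul_apply, Equiv.swap_apply_of_ne_of_ne (fun hh => hjk (heinj hh))
      (fun hh => hjl (heinj hh)), Equiv.swap_apply_left]
  have p1 : ∀ j k l : Fin m,
      (Equiv.swap (e j) x2 * Equiv.swap (e k) (e l)) x1 = x1 := by
    intro j k l
    rw [Equiv.Perm.mul_apply, Equiv.swap_apply_of_ne_of_ne (he1 k).symm (he1 l).symm,
      Equiv.swap_apply_of_ne_of_ne (he1 j).symm h12']
  have pi' : ∀ i j k l : Fin m, i ≠ j → i ≠ k → i ≠ l →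
      (Equiv.swap (e j) x2 * Equiv.swap (e k) (e l)) (e i) = e i := by
    intro i j k l hij hik hil
    rw [Equiv.Perm.mul_apply, Equiv.swap_apply_of_ne_of_ne (fun hh => hik (heinj hh))
      (fun hh => hil (heinj hh)), Equiv.swap_apply_of_ne_of_ne (fun hh => hij (heinj hh)) (he2 i)]
  have hone : (1 : ZMod q) ≠ 0 := one_ne_zero
  by_cases hA : ∀ i, χ (e i) = 0
  · by_cases hζ : ζ = 0
    · exact hχ1 (star χ hocc (by simp [hA, hζ]))
    · let i0 : Fin m := ⟨0, by omega⟩
      let i1 : Fin m := ⟨1, by omega⟩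
      let i2 : Fin m := ⟨2, by omega⟩
      let i3 : Fin m := ⟨3, by omega⟩
      let i4 : Fin m := ⟨4, by omega⟩
      have d01 : i0 ≠ i1 := by simp [i0, i1]
      have d02 : i0 ≠ i2 := by simp [i0, i2]
      have d12 : i1 ≠ i2 := by simp [i1, i2]
      have d34 : i3 ≠ i4 := by simp [i3, i4]
      set χ' : Fin (m + 2) → ZMod q :=
        fun i => χ ((Equiv.swap (e i0) x2 * Equiv.swap (e i1) (e i2)) i) with hχ'
      have hocc' : Occ ω (fun i => c (S i)) χ' := perm i0 i1 i2 d12 d01 d02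
      have h0 : χ' (e i0) = χ x2 := by
        rw [hχ']
        beta_reduce
        rw [pj i0 i1 i2 d01 d02]
      have h1 : χ' x1 = χ x1 := by
        rw [hχ']
        beta_reduce
        rw [p1]
      have hrest : ∀ i, i ≠ i0 → χ' (e i) = 0 := by
        intro i hi
        rw [hχ']
        beta_reduce
        rw [Equiv.Perm.mul_apply]
        have h3 : Equiv.swap (e i1) (e i2) (e i) = e (Equiv.swap i1 i2 i) :=
          (heinj.swap_apply i1 i2 i).symm ▸ rfl
        have h4 : Equiv.swap i1 i2 i ≠ i0 := by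
          intro h5
          have h6 : i = Equiv.swap i1 i2 i0 := by
            rw [← h5, Equiv.swap_apply_self]
          rw [Equiv.swap_apply_of_ne_of_ne d01 d02] at h6
          exact hi h6
        rw [h3, Equiv.swap_apply_of_ne_of_ne (fun hh => h4 (heinj hh)) (he2 _)]
        exact hA _
      let μ : Fin (m + 2) → ZMod q := fun i => if i = e i0 then -ζ / χ x2 else 1
      have hμ : ∀ i, μ i ≠ 0 := by
        intro i
        simp only [μ]
        split_ifs
        · exact div_ne_zero (neg_ne_zero.2 hζ) hχ2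
        · exact hone
      have hsc' := (hC4' χ' hocc').2 μ hμ (e i3) (e i4) fun hh => d34 (heinj hh)
      have h5 := key (fun i => μ i * χ' i) i3 i4 hsc' (by
        rw [Finset.sum_eq_single i0]
        · simp only [μ, if_true, h0]
          rw [div_mul_cancel₀ _ hχ2]
          ring
        · intro i _ hi
          rw [hrest i hi, mul_zero]
        · intro hh
          exact absurd (Finset.mem_univ _) hh)
      beta_reduce at h5
      rw [h1] at h5
      exact (mul_ne_zero (hμ _) hχ1) h5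
  · push Not at hA
    obtain ⟨i0, hi0⟩ := hA
    have hex : ∀ u : Finset (Fin m), u.card ≤ 4 → ∃ j : Fin m, j ∉ u := by
      intro u hu
      by_contra hh
      push Not at hh
      have : u = Finset.univ := Finset.eq_univ_iff_forall.2 hh
      rw [this, Finset.card_univ, Fintype.card_fin] at hu
      omega
    obtain ⟨j0, hj0⟩ := hex {i0} (by simp)
    obtain ⟨k0, hk0⟩ := hex {i0, j0} (Finset.card_le_two.trans (by omega))
    obtain ⟨l0, hl0⟩ := hex {i0, j0, k0} (Finset.card_le_three.trans (by omega))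
    simp only [Finset.mem_singleton, Finset.mem_insert, not_or] at hj0 hk0 hl0
    set χ' : Fin (m + 2) → ZMod q :=
      fun i => χ ((Equiv.swap (e j0) x2 * Equiv.swap (e k0) (e l0)) i) with hχ'
    have hocc' : Occ ω (fun i => c (S i)) χ' :=
      perm j0 k0 l0 (Ne.symm hl0.2.2) (Ne.symm hk0.2) (Ne.symm hl0.2.1)
    have h0 : χ' (e j0) ≠ 0 := by
      rw [hχ']
      beta_reduce
      rw [pj j0 k0 l0 (Ne.symm hk0.2) (Ne.symm hl0.2.1)]
      exact hχ2
    have h1 : χ' x1 = χ x1 := by
      rw [hχ']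
      beta_reduce
      rw [p1]
    have h2 : χ' (e i0) ≠ 0 := by
      rw [hχ']
      beta_reduce
      rw [pi' i0 j0 k0 l0 (Ne.symm hj0) (Ne.symm hk0.1) (Ne.symm hl0.1)]
      exact hi0
    obtain ⟨μ, hμ0, hμs, -⟩ := hC6 q m hq hq5 (by omega) (fun i => χ' (e i)) i0 j0
      (Ne.symm hj0) h2 h0 (-ζ)
    let μ' : Fin (m + 2) → ZMod q := Fin.append μ (fun _ => 1)
    have hμe : ∀ i, μ' (e i) = μ i := fun i => Fin.append_left _ _ _
    have hμ' : ∀ i, μ' i ≠ 0 := by
      refine hcases _ (fun i => ?_) ?_ ?_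
      · rw [hμe]
        exact hμ0 i
      · have : μ' x1 = 1 := Fin.append_right _ _ _
        rw [this]
        exact hone
      · have : μ' x2 = 1 := Fin.append_right _ _ _
        rw [this]
        exact hone
    have hsc' := (hC4' χ' hocc').2 μ' hμ' (e k0) (e l0) fun hh => hl0.2.2 (heinj hh).symm
    have h5 := key (fun i => μ' i * χ' i) k0 l0 hsc' (by
      simp only [hμe]
      rw [hμs]
      ring)
    beta_reduce at h5
    rw [h1] at h5
    exact (mul_ne_zero (hμ' _) hχ1) h5

end Pool.Agent.H48.NY.H4
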